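import Mathlib
import Pool.Agent.H487R3.LorD

open Pool.Agent.H487R3.LorA
open scoped ENNReal

namespace Pool.Agent.Results.MP_4bd73f_an.LorentzEmbedding

universe u

/-- `X` is superreflexive: isomorphic to a uniformly convex Banach space. -/
def Superreflexive (𝕜 : Type*) [RCLike 𝕜] (X : Type u) [NormedAddCommGroup X]
    [NormedSpace 𝕜 X] : Prop :=
  ∃ (Y : Type u) (_ : NormedAddCommGroup Y) (_ : NormedSpace 𝕜 Y),
    CompleteSpace Y ∧ UniformConvexSpace Y ∧ Nonempty (X ≃L[𝕜] Y)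

/-- Every quasi-greedy basis of a superreflexive Banach space embeds it, through the coefficient
map, in the Lorentz sequence space `d_{1,r}(w_l)` for some finite `r`. -/
theorem result {𝕜 : Type*} [RCLike 𝕜] {X : Type u} [NormedAddCommGroup X] [NormedSpace 𝕜 X]
    [CompleteSpace X] (hX : Superreflexive 𝕜 X) (x : ℕ → X) (xs : ℕ → (X →L[𝕜] 𝕜))
    (hb : IsBasis x xs) (hq : IsQuasiGreedy x xs) :
    ∃ r : ℝ, 1 ≤ r ∧ ∃ C : ℝ, ∀ f : X,
      lorentz r (lowerDem 𝕜 x) (fun n => ‖xs n f‖) ≤ ENNReal.ofReal (C * ‖f‖) := by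
  obtain ⟨Y, i1, i2, -, i4, ⟨T⟩⟩ := hX
  exact main hb hq T

end Pool.Agent.Results.MP_4bd73f_an.LorentzEmbedding
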